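import Pool.Agent.Helper71.Neg.Hard2
import Pool.Agent.Helper71.Neg.Face
import Pool.Agent.Helper24.Neg.Final2
import Pool.Agent.Helper24.Neg.Wire

/-!
# Counting cliques with few non-monotone gates
-/

set_option autoImplicit false

namespace Pool.Agent.Results.MP_381749_lc.NegationLevelsCount

open Finset

/-- Circuits with `S` gates on graphs `G` with the vertices `0, …, n - 1`. The gates are numbered
`0, …, S - 1`. Gate `i` computes the predicate `f i` and reads the gates in `ins i`; these have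
smaller numbers. A gate that is not in `A` is a constant, an input (is `uv` an edge of `G`?), or
the AND or the OR of two gates that it reads. The gates in `A` are arbitrary: such a gate is any
Boolean function of the gates that it reads (of any number of them), for instance a NOT gate. -/
structure Circuit (n S : ℕ) where
  /-- the predicate computed by a gate -/
  f : ℕ → SimpleGraph (Fin n) → Prop
  /-- the gates read by a gate -/
  ins : ℕ → Finset ℕ
  /-- the arbitrary gates -/
  A : Finset ℕ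
  lt : ∀ i < S, ∀ j ∈ ins i, j < i
  mono : ∀ i < S, i ∉ A →
    (∃ b : Prop, ∀ G, f i G ↔ b) ∨ (∃ u v, ∀ G, f i G ↔ G.Adj u v) ∨
    (∃ j ∈ ins i, ∃ k ∈ ins i,
      ((∀ G, f i G ↔ (f j G ∧ f k G)) ∨ (∀ G, f i G ↔ (f j G ∨ f k G))))
  any : ∀ i < S, i ∈ A → ∀ G G', (∀ j ∈ ins i, (f j G ↔ f j G')) → (f i G ↔ f i G')

/-- The levels `lev i` of the gates are admissible: they are at most `t`, a gate is not on a lower
level than the gates that it reads, an arbitrary gate is on a higher level than the gates that it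
reads, and for each `m = 1, …, t` the arbitrary gates on level `m` read together at most `r m`
gates. -/
def Circuit.Levels {n S : ℕ} (c : Circuit n S) (lev : ℕ → ℕ) (t : ℕ) (r : ℕ → ℕ) : Prop :=
  (∀ i < S, lev i ≤ t) ∧
  (∀ i < S, ∀ j ∈ c.ins i, lev j ≤ lev i ∧ (i ∈ c.A → lev j < lev i)) ∧
  ∀ m, 1 ≤ m → m ≤ t → ((c.A.filter (fun i => i < S ∧ lev i = m)).biUnion c.ins).card ≤ r m

open Classical in
/-- The probability of `E` if `ω` has the probability `p ω`. -/
noncomputable def prob {Ω : Type} [Fintype Ω] (p : Ω → ℝ) (E : Ω → Prop) : ℝ :=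
  ∑ ω, if E ω then p ω else 0

open Classical in
/-- The number of cliques of `G`, of all sizes (the empty one included). -/
noncomputable def numCliques {n : ℕ} (G : SimpleGraph (Fin n)) : ℕ :=
  (univ.filter (fun X : Finset (Fin n) => G.IsClique X)).card

lemma Circuit.wired {n S : ℕ} (c : Circuit n S) : Pool.Agent.Helper71.Neg.Wired S c.f c.ins c.A :=
  ⟨c.lt, c.mono, c.any⟩

lemma prob_eq {Ω : Type} [Fintype Ω] (p : Ω → ℝ) (E : Ω → Prop) :
    prob p E = ∑ ω, p ω * @ite ℝ (E ω) (Classical.dec _) 1 0 := by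
  classical
  unfold prob
  refine sum_congr rfl (fun ω _ => ?_)
  by_cases h : E ω
  · rw [if_pos h, if_pos h, mul_one]
  · rw [if_neg h, if_neg h, mul_zero]

lemma numCliques_eq {n : ℕ} (G : SimpleGraph (Fin n)) :
    numCliques G = Pool.Agent.Helper14.NegCount.numCliques G := by
  unfold numCliques Pool.Agent.Helper14.NegCount.numCliques Pool.Agent.Helper71.Neg.cnt
  congr

/-- Random circuits of size `S` that output the binary digits of the number of cliques of every
graph with `n` vertices, with probability at least `1 / 2 + δ`, need many non-monotone gates, on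
many levels. -/
theorem result (δ : ℝ) (hδ : 0 < δ) :
    ∃ C : ℝ, 0 < C ∧ ∀ n S : ℕ, 2 ≤ n → n ≤ S →
      ∀ (Ω : Type) [Fintype Ω] (p : Ω → ℝ) (c : Ω → Circuit n S) (out : Ω → ℕ → ℕ),
      (∀ ω, 0 ≤ p ω) → ∑ ω, p ω = 1 → (∀ ω, ∀ b ≤ n, out ω b < S) →
      (∀ G : SimpleGraph (Fin n), 1 / 2 + δ ≤
        prob p (fun ω => ∀ b ≤ n, ((c ω).f (out ω b) G ↔ (numCliques G).testBit b = true))) →
      ∀ (t : ℕ) (r : ℕ → ℕ) (lev : Ω → ℕ → ℕ), (∀ ω, (c ω).Levels (lev ω) t r) →
      (n : ℝ) ^ 2 ≤ (C * Real.log S) ^ 10 *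
        (∏ m ∈ Icc 1 t, (1 + (r m : ℝ)) + (C * Real.log S) ^ 8) := by
  obtain ⟨C, hC, H⟩ := Pool.Agent.Helper24.Neg.neg_count3 _
    (fun s k g l ρ S _ hl hρ hg hk τ ζ hτ hτ2 hζ t q r hq hsq =>
      Pool.Agent.Helper71.Neg.exists_hard2 s k g l ρ S hl hρ hg hk τ ζ hτ hτ2 hζ t r q hq hsq)
    Pool.Agent.Helper24.Neg.endCount2 δ hδ
  refine ⟨C, hC, fun n S hn hnS Ω _ p c out hp hp1 hout hG => ?_⟩
  have hG' : ∀ G : SimpleGraph (Fin n), 1 / 2 + δ ≤
      ∑ ω, p ω * @ite ℝ (∀ b ≤ n, ((c ω).f (out ω b) G ↔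
        (Pool.Agent.Helper14.NegCount.numCliques G).testBit b = true)) (Classical.dec _) 1 0 := by
    intro G
    have h := hG G
    rw [prob_eq, numCliques_eq G] at h
    exact h
  intro t r lev hlev
  have h := H n t S r hn hnS Ω p (fun ω => (c ω).f) lev
    (fun ω => (c ω).A.filter (fun i => i < S)) (fun ω => (c ω).ins) out hp hp1
    (fun ω => (c ω).wired.circ (hlev ω).2.1) (fun ω => (hlev ω).1)
    (fun ω m hm => Pool.Agent.Helper71.Neg.reads_le (hlev ω).1 (hlev ω).2.2 m hm) hout hG'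
  have h2 : ∏ m ∈ Icc 1 t, (1 + (r m : ℝ)) = ∏ m ∈ range t, (1 + (r (m + 1) : ℝ)) := by
    have : Icc 1 t = Ico 1 (t + 1) := by
      ext x
      simp only [mem_Icc, mem_Ico]
      omega
    rw [this, prod_Ico_eq_prod_range]
    refine prod_congr (by simp) (fun m _ => ?_)
    rw [add_comm 1 m]
  rw [h2]
  exact h

end Pool.Agent.Results.MP_381749_lc.NegationLevelsCount
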