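import Pool.Agent.Helper97.DM.SSMain

/-!
# De Morgan formulas for SUBSET SUM have almost cubic size, even with randomness
-/

set_option autoImplicit false

namespace Pool.Agent.Results.MP_b6562f_lc.SubsetSumFormulas

open Pool.Agent.Helper97.DM

/-- The number with the binary digits `x 0, x 1, …, x (n - 1)` (`x 0` is the last digit). -/
def number {n : ℕ} (x : Fin n → Bool) : ℕ := ∑ j : Fin n, if x j = true then 2 ^ (j : ℕ) else 0

/-- The instance `X` of SUBSET SUM consists of `n` numbers with `n` binary digits and a target with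
`n` digits: `X (some i, j)` is the digit `j` of the number `i` and `X (none, j)` is the digit `j` of
the target. It is a yes-instance if the sum of some of the numbers is the target. -/
def IsYes {n : ℕ} (X : Option (Fin n) × Fin n → Bool) : Prop :=
  ∃ S : Finset (Fin n), ∑ i ∈ S, number (fun j => X (some i, j)) = number (fun j => X (none, j))

open Classical in
/-- Let `ε, δ > 0`. A randomised De Morgan formula (a probability distribution `w` on the formulas
`F ω`) which decides every instance of SUBSET SUM with `n` numbers of `n` bits with probability at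
least `1 / 2 + δ` has expected size at least `c n ^ (6 - ε)`. -/
theorem result (ε δ : ℝ) (hε : 0 < ε) (hδ : 0 < δ) : ∃ c : ℝ, 0 < c ∧ ∀ n : ℕ, 1 ≤ n →
    ∀ (Ω : Type) [Fintype Ω] (w : Ω → ℝ) (F : Ω → DFormula (Option (Fin n) × Fin n)),
      (∀ ω, 0 ≤ w ω) → ∑ ω, w ω = 1 →
      (∀ X : Option (Fin n) × Fin n → Bool,
        1 / 2 + δ ≤ ∑ ω, w ω * (if (F ω).eval X = true ↔ IsYes X then 1 else 0)) →
      c * (n : ℝ) ^ (6 - ε) ≤ ∑ ω, w ω * ((F ω).size : ℝ) := by
  obtain ⟨c, hc, H⟩ := ss_main ε δ hε hδ
  refine ⟨c, hc, fun n hn Ω _ w F hw hw1 hF => H n hn Ω w F hw hw1 fun X => ?_⟩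
  refine (hF X).trans (le_of_eq (Finset.sum_congr rfl fun ω _ => ?_))
  have h : ((F ω).eval X = true ↔ IsYes X) ↔ ((F ω).eval X = true ↔ SubsetSum n X) := Iff.rfl
  by_cases h1 : (F ω).eval X = true ↔ IsYes X
  · rw [if_pos h1, if_pos (h.1 h1)]
  · rw [if_neg h1, if_neg fun h2 => h1 (h.2 h2)]

end Pool.Agent.Results.MP_b6562f_lc.SubsetSumFormulas
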